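import Pool.Agent.Helper61.NW.Goals

/-!
# Packet CYL of project NW (MP_266b34_co)
-/

set_option autoImplicit false

namespace Pool.Agent.Helper37.NW

open Pool.Agent.Helper52.Wq2 Pool.Agent.Helper61.NW

def al (D : ℕ) (a b : ℤ) : ℤ := 6 * (D + 1) * a + 3 * (b - a + D)
def be (D : ℕ) (a b : ℤ) : ℤ := 6 * (D + 1) * b + 3 * (a - b + D)

/-- the row at `x` of the route of `(a, b)` -/
def rr (D : ℕ) (L a b x : ℤ) : ℤ := (al D a b * (L - x) + be D a b * x) / L

lemma rr_zero (D : ℕ) (L a b : ℤ) (hL : 0 < L) : rr D L a b 0 = al D a b := by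
  unfold rr
  rw [sub_zero, mul_zero, add_zero, Int.mul_ediv_cancel _ hL.ne']

lemma rr_L (D : ℕ) (L a b : ℤ) (hL : 0 < L) : rr D L a b L = be D a b := by
  unfold rr
  rw [sub_self, mul_zero, zero_add, Int.mul_ediv_cancel _ hL.ne']

lemma div_step (N N' L k : ℤ) (hL : 0 < L) (h : N' ≤ N + k * L) : N' / L ≤ N / L + k := by
  have h1 := Int.ediv_le_ediv hL h
  rwa [Int.add_mul_ediv_right _ _ hL.ne'] at h1

lemma rr_step (D : ℕ) (L a b x : ℤ) (hL : 6 * (D : ℤ) * D + 1 ≤ L) (hab : |a - b| ≤ D) :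
    rr D L a b (x + 1) ≤ rr D L a b x + 1 ∧ rr D L a b x ≤ rr D L a b (x + 1) + 1 := by
  have hD : (0 : ℤ) ≤ D := Int.natCast_nonneg D
  have hL0 : 0 < L := by nlinarith
  rw [abs_le] at hab
  have hd : be D a b - al D a b = 6 * D * (b - a) := by unfold al be; ring
  have h1 : be D a b - al D a b ≤ L := by rw [hd]; nlinarith
  have h2 : al D a b - be D a b ≤ L := by
    have : al D a b - be D a b = 6 * D * (a - b) := by linarith
    rw [this]; nlinarith
  constructor
  · apply div_step _ _ L 1 hL0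
    nlinarith
  · apply div_step _ _ L 1 hL0
    nlinarith

lemma rr_sep (D : ℕ) (L a b a' b' x : ℤ) (hL : 0 < L) (hx : 0 ≤ x) (hxL : x ≤ L)
    (ha : a < a') (hb : b ≤ b') : rr D L a b x + 3 ≤ rr D L a' b' x := by
  have hD : (0 : ℤ) ≤ D := Int.natCast_nonneg D
  have h1 : al D a b + 3 ≤ al D a' b' := by unfold al; nlinarith
  have h2 : be D a b + 3 ≤ be D a' b' := by unfold be; nlinarith
  have h3 : (al D a b * (L - x) + be D a b * x) + 3 * L ≤
      al D a' b' * (L - x) + be D a' b' * x := by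
    have h4 : (al D a b + 3) * (L - x) ≤ al D a' b' * (L - x) :=
      mul_le_mul_of_nonneg_right h1 (by linarith)
    have h5 : (be D a b + 3) * x ≤ be D a' b' * x := mul_le_mul_of_nonneg_right h2 hx
    linarith
  have h6 := Int.ediv_le_ediv hL h3
  rw [Int.add_mul_ediv_right _ _ hL.ne'] at h6
  exact h6

lemma al_mem (D : ℕ) (a b : ℤ) (hab : |a - b| ≤ D) :
    6 * ((D : ℤ) + 1) * a ≤ al D a b ∧ al D a b < 6 * ((D : ℤ) + 1) * a + 6 * (D + 1) := by
  rw [abs_le] at hab
  unfold al
  constructor <;> linarith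

lemma be_mem (D : ℕ) (a b : ℤ) (hab : |a - b| ≤ D) :
    6 * ((D : ℤ) + 1) * b ≤ be D a b ∧ be D a b < 6 * ((D : ℤ) + 1) * b + 6 * (D + 1) := by
  rw [abs_le] at hab
  unfold be
  constructor <;> linarith

/-- the width of the first gaps -/
def ww (D : ℕ) : ℕ := 6 * D * D + 2

/-- the gap of a column -/
def JJ (D n v : ℕ) : ℕ := min (v / ww D) (n - 1)

/-- the width of gap `j` -/
def gg (D n M j : ℕ) : ℕ := if j + 1 < n then ww D else M - ww D * (n - 1)

lemma ww_pos (D : ℕ) : 0 < ww D := by unfold ww; omega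

lemma gg_ge (D n M j : ℕ) (hn : 3 ≤ n) (hM : ww D * n ≤ M) : ww D ≤ gg D n M j := by
  unfold gg
  split_ifs
  · exact le_rfl
  · have h1 : ww D * n = ww D * (n - 1) + ww D := by
      obtain ⟨k, rfl⟩ : ∃ k, n = k + 1 := ⟨n - 1, by omega⟩
      simp [Nat.mul_add]
    omega

lemma JJ_of (D n M j x : ℕ) (hn : 3 ≤ n) (hM : ww D * n ≤ M) (hj : j < n) (hx : x < gg D n M j) :
    JJ D n (ww D * j + x) = j ∧ ww D * j + x < M := by
  have hw := ww_pos D
  unfold gg at hx
  unfold JJ
  split_ifs at hx with h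
  · have h1 : (ww D * j + x) / ww D = j := by
      rw [Nat.mul_add_div hw, Nat.div_eq_of_lt hx, add_zero]
    refine ⟨by rw [h1]; omega, ?_⟩
    have h2 : ww D * j + ww D ≤ ww D * n := by
      have : ww D * (j + 1) ≤ ww D * n := Nat.mul_le_mul_left _ hj
      rwa [Nat.mul_succ] at this
    omega
  · have hjn : j = n - 1 := by omega
    subst hjn
    have h1 : n - 1 ≤ (ww D * (n - 1) + x) / ww D := by
      rw [Nat.mul_add_div hw]; exact Nat.le_add_right _ _
    exact ⟨by omega, by omega⟩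

/-- the branch sets -/
def phi (D n M : ℕ) (E : ZMod n → ℤ → ℤ → Prop) (p : ℤ × ZMod n) : Set (ℤ × ZMod M) :=
  {q | JJ D n q.2.val = p.2.val ∧
    ((q.2.val = ww D * p.2.val ∧ 6 * ((D : ℤ) + 1) * p.1 ≤ q.1 ∧
        q.1 < 6 * ((D : ℤ) + 1) * p.1 + 6 * (D + 1)) ∨
      ∃ x : ℕ, 1 ≤ x ∧ x < gg D n M p.2.val ∧ q.2.val = ww D * p.2.val + x ∧ ∃ b, E p.2 p.1 b ∧
        (q.1 = rr D (gg D n M p.2.val - 1 : ℕ) p.1 b (x - 1) ∨
          q.1 = rr D (gg D n M p.2.val - 1 : ℕ) p.1 b x))}

theorem cyl_val_add_one (M : ℕ) (c : ℕ) (hc : c + 1 < M) :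
    ((c : ZMod M) + 1).val = c + 1 := by
  have : ((c : ZMod M) + 1) = ((c + 1 : ℕ) : ZMod M) := by push_cast; rfl
  rw [this, ZMod.val_cast_of_lt hc]

/-- **CYL.** -/
theorem cyl : CylStmt := by
  intro n hn D E hE1 hE2
  refine ⟨ww D * n, fun M hM => ?_⟩
  have hw := ww_pos D
  haveI : NeZero n := ⟨by omega⟩
  have hM3 : 3 ≤ M := by
    have h1 : 1 * n ≤ ww D * n := Nat.mul_le_mul_right _ hw
    omega
  haveI : NeZero M := ⟨by omega⟩
  haveI : Fact (1 < M) := ⟨by omega⟩
  -- numbers
  have hg : ∀ j, ww D ≤ gg D n M j := fun j => gg_ge D n M j hn hM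
  have hL : ∀ j, 6 * (D : ℤ) * D + 1 ≤ ((gg D n M j - 1 : ℕ) : ℤ) := by
    intro j
    have h1 := hg j
    have h2 : 6 * D * D + 1 ≤ gg D n M j - 1 := by
      have : ww D = 6 * D * D + 2 := rfl
      omega
    exact_mod_cast h2
  have hL0 : ∀ j, (0 : ℤ) < ((gg D n M j - 1 : ℕ) : ℤ) := by
    intro j
    have h1 := hL j
    have h2 : (0 : ℤ) ≤ 6 * (D : ℤ) * D := by positivity
    linarith
  -- the points
  have hval : ∀ j : ZMod n, ∀ x : ℕ, x < gg D n M j.val →
      (((ww D * j.val + x : ℕ) : ZMod M)).val = ww D * j.val + x := by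
    intro j x hx
    exact ZMod.val_cast_of_lt (JJ_of D n M j.val x hn hM (ZMod.val_lt j) hx).2
  have hJ : ∀ j : ZMod n, ∀ x : ℕ, x < gg D n M j.val → JJ D n (ww D * j.val + x) = j.val := by
    intro j x hx
    exact (JJ_of D n M j.val x hn hM (ZMod.val_lt j) hx).1
  have hg1 : ∀ j, 0 < gg D n M j := fun j => lt_of_lt_of_le hw (hg j)
  -- membership
  have mem0 : ∀ (a : ℤ) (j : ZMod n) (r : ℤ), 6 * ((D : ℤ) + 1) * a ≤ r →
      r < 6 * ((D : ℤ) + 1) * a + 6 * (D + 1) →
      (r, ((ww D * j.val : ℕ) : ZMod M)) ∈ phi D n M E (a, j) := by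
    intro a j r h1 h2
    have h3 := hval j 0 (hg1 _)
    have h4 := hJ j 0 (hg1 _)
    rw [add_zero] at h3 h4
    refine ⟨?_, Or.inl ⟨?_, h1, h2⟩⟩
    · show JJ D n ((ww D * j.val : ℕ) : ZMod M).val = j.val
      rw [h3, h4]
    · exact h3
  have mem1 : ∀ (a b : ℤ) (j : ZMod n) (x : ℕ) (r : ℤ), 1 ≤ x → x < gg D n M j.val → E j a b →
      (r = rr D (gg D n M j.val - 1 : ℕ) a b (x - 1) ∨
        r = rr D (gg D n M j.val - 1 : ℕ) a b x) →
      (r, ((ww D * j.val + x : ℕ) : ZMod M)) ∈ phi D n M E (a, j) := by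
    intro a b j x r h1 h2 hE hr
    refine ⟨?_, Or.inr ⟨x, h1, h2, hval j x h2, b, hE, hr⟩⟩
    show JJ D n ((ww D * j.val + x : ℕ) : ZMod M).val = j.val
    rw [hval j x h2, hJ j x h2]
  -- adjacency in the cylinder
  have adjv : ∀ (r : ℤ) (c : ZMod M), (Cyl M).Adj (r, c) (r + 1, c) := by
    intro r c
    unfold Cyl
    rw [SimpleGraph.fromRel_adj]
    refine ⟨?_, Or.inl (Or.inl ⟨rfl, rfl⟩)⟩
    intro h
    have := congrArg Prod.fst h
    simp at this
  have adjh : ∀ (r : ℤ) (c : ZMod M), (Cyl M).Adj (r, c) (r, c + 1) := by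
    intro r c
    unfold Cyl
    rw [SimpleGraph.fromRel_adj]
    refine ⟨?_, Or.inl (Or.inr ⟨rfl, rfl⟩)⟩
    intro h
    have := congrArg Prod.snd h
    simp at this
  refine ⟨phi D n M E, ?_, ?_, ?_⟩
  · -- connected
    rintro ⟨a, j⟩
    set s := phi D n M E (a, j) with hs
    set R := fun p q : ℤ × ZMod M => (Cyl M).Adj p q ∧ q ∈ s with hR
    have hD : (0 : ℤ) ≤ D := Int.natCast_nonneg D
    refine conn_of_root (r := (6 * ((D : ℤ) + 1) * a, ((ww D * j.val : ℕ) : ZMod M)))
      (mem0 a j _ le_rfl (by linarith)) ?_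
    have col : ∀ k : ℕ, (k : ℤ) < 6 * (D + 1) → Relation.ReflTransGen R
        (6 * ((D : ℤ) + 1) * a, ((ww D * j.val : ℕ) : ZMod M))
        (6 * ((D : ℤ) + 1) * a + k, ((ww D * j.val : ℕ) : ZMod M)) := by
      intro k
      induction k with
      | zero => intro _; rw [Nat.cast_zero, add_zero]
      | succ k ih =>
        intro hk
        push_cast at hk
        refine (ih (by linarith)).tail ?_
        have h1 : (6 * ((D : ℤ) + 1) * a + ((k + 1 : ℕ) : ℤ)) = (6 * ((D : ℤ) + 1) * a + k) + 1 := by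
          push_cast; ring
        rw [h1]
        refine ⟨adjv _ _, mem0 a j _ (by linarith) (by linarith)⟩
    have col' : ∀ r : ℤ, 6 * ((D : ℤ) + 1) * a ≤ r → r < 6 * ((D : ℤ) + 1) * a + 6 * (D + 1) →
        Relation.ReflTransGen R (6 * ((D : ℤ) + 1) * a, ((ww D * j.val : ℕ) : ZMod M))
          (r, ((ww D * j.val : ℕ) : ZMod M)) := by
      intro r h1 h2
      have h3 := col (r - 6 * ((D : ℤ) + 1) * a).toNat (by omega)
      have h4 : 6 * ((D : ℤ) + 1) * a + ((r - 6 * ((D : ℤ) + 1) * a).toNat : ℤ) = r := by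
        rw [Int.toNat_of_nonneg (by linarith)]; ring
      rwa [h4] at h3
    have route : ∀ b, E j a b → ∀ x : ℕ, 1 ≤ x → x < gg D n M j.val →
        Relation.ReflTransGen R (6 * ((D : ℤ) + 1) * a, ((ww D * j.val : ℕ) : ZMod M))
          (rr D (gg D n M j.val - 1 : ℕ) a b (x - 1), ((ww D * j.val + x : ℕ) : ZMod M)) ∧
        Relation.ReflTransGen R (6 * ((D : ℤ) + 1) * a, ((ww D * j.val : ℕ) : ZMod M))
          (rr D (gg D n M j.val - 1 : ℕ) a b x, ((ww D * j.val + x : ℕ) : ZMod M)) := by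
      intro b hE
      have hab := hE1 j a b hE
      have up : ∀ x : ℕ, 1 ≤ x → x < gg D n M j.val →
          Relation.ReflTransGen R (6 * ((D : ℤ) + 1) * a, ((ww D * j.val : ℕ) : ZMod M))
            (rr D (gg D n M j.val - 1 : ℕ) a b (x - 1), ((ww D * j.val + x : ℕ) : ZMod M)) →
          Relation.ReflTransGen R (6 * ((D : ℤ) + 1) * a, ((ww D * j.val : ℕ) : ZMod M))
            (rr D (gg D n M j.val - 1 : ℕ) a b x, ((ww D * j.val + x : ℕ) : ZMod M)) := by
        intro x h1 h2 h3
        have h4 := rr_step D (gg D n M j.val - 1 : ℕ) a b ((x : ℤ) - 1) (hL _) hab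
        rw [sub_add_cancel] at h4
        have hm := mem1 a b j x _ h1 h2 hE (Or.inr rfl)
        rcases lt_trichotomy (rr D (gg D n M j.val - 1 : ℕ) a b ((x : ℤ) - 1))
          (rr D (gg D n M j.val - 1 : ℕ) a b x) with h | h | h
        · have h5 : rr D (gg D n M j.val - 1 : ℕ) a b x =
              rr D (gg D n M j.val - 1 : ℕ) a b ((x : ℤ) - 1) + 1 := by omega
          refine h3.tail ⟨?_, hm⟩
          rw [h5]
          exact adjv _ _
        · rw [← h]; exact h3
        · have h5 : rr D (gg D n M j.val - 1 : ℕ) a b ((x : ℤ) - 1) =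
              rr D (gg D n M j.val - 1 : ℕ) a b x + 1 := by omega
          refine h3.tail ⟨?_, hm⟩
          rw [h5]
          exact (adjv _ _).symm
      intro x
      induction x with
      | zero => intro h; omega
      | succ x ih =>
        intro h1 h2
        have key : Relation.ReflTransGen R (6 * ((D : ℤ) + 1) * a, ((ww D * j.val : ℕ) : ZMod M))
            (rr D (gg D n M j.val - 1 : ℕ) a b (((x + 1 : ℕ) : ℤ) - 1),
              ((ww D * j.val + (x + 1) : ℕ) : ZMod M)) := by
          have hm := mem1 a b j (x + 1) _ h1 h2 hE (Or.inl rfl)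
          have hc : ((ww D * j.val + (x + 1) : ℕ) : ZMod M) =
              ((ww D * j.val + x : ℕ) : ZMod M) + 1 := by push_cast; ring
          have hx1 : (((x + 1 : ℕ) : ℤ) - 1) = x := by push_cast; ring
          rw [hx1] at hm ⊢
          rcases Nat.eq_zero_or_pos x with h0 | h0
          · subst h0
            have h3 := rr_zero D (gg D n M j.val - 1 : ℕ) a b (hL0 _)
            rw [Nat.cast_zero, h3] at hm ⊢
            obtain ⟨h4, h5⟩ := al_mem D a b hab
            refine (col' _ h4 h5).tail ⟨?_, hm⟩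
            rw [hc, add_zero]
            exact adjh _ _
          · obtain ⟨_, h3⟩ := ih h0 (by omega)
            refine h3.tail ⟨?_, hm⟩
            rw [hc]
            exact adjh _ _
        exact ⟨key, up (x + 1) h1 h2 key⟩
    rintro ⟨r, c⟩ ⟨hJc, hrc⟩
    rcases hrc with ⟨hc, h1, h2⟩ | ⟨x, h1, h2, hc, b, hE, hr⟩
    · have hc' : c = ((ww D * j.val : ℕ) : ZMod M) := by
        rw [← hc]; exact (ZMod.natCast_zmod_val c).symm
      rw [hc']
      exact col' r h1 h2
    · have hc' : c = ((ww D * j.val + x : ℕ) : ZMod M) := by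
        rw [← hc]; exact (ZMod.natCast_zmod_val c).symm
      rw [hc']
      obtain ⟨h3, h4⟩ := route b hE x h1 h2
      rcases hr with hr | hr
      · have hr' : r = rr D (gg D n M j.val - 1 : ℕ) a b (x - 1) := hr
        rw [hr']; exact h3
      · have hr' : r = rr D (gg D n M j.val - 1 : ℕ) a b x := hr
        rw [hr']; exact h4
  · -- disjoint
    rintro ⟨a, j⟩ ⟨a', j'⟩ ⟨r, c⟩ ⟨hJ1, h1⟩ ⟨hJ2, h2⟩
    have hjj : j = j' := by
      apply ZMod.val_injective n
      have e1 : JJ D n c.val = j.val := hJ1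
      have e2 : JJ D n c.val = j'.val := hJ2
      rw [← e1, ← e2]
    subst hjj
    have hD : (0 : ℤ) ≤ D := Int.natCast_nonneg D
    have haa : a = a' := by
      rcases h1 with ⟨hc, h3, h4⟩ | ⟨x, h3, h4, hc, b, hE, hr⟩ <;>
      rcases h2 with ⟨hc', h3', h4'⟩ | ⟨x', h3', h4', hc', b', hE', hr'⟩
      · simp only at h3 h4 h3' h4'
        by_contra hne
        rcases lt_or_gt_of_ne hne with h | h
        · nlinarith
        · nlinarith
      · simp only at hc hc'
        omega
      · simp only at hc hc'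
        omega
      · simp only at hc hc' hE hE' hr hr' h4 h4'
        have hxx : x = x' := by omega
        subst hxx
        set L : ℤ := ((gg D n M j.val - 1 : ℕ) : ℤ) with hLdef
        have hxL : (x : ℤ) ≤ L := by
          have : x ≤ gg D n M j.val - 1 := by omega
          rw [hLdef]; exact_mod_cast this
        have hx1 : (1 : ℤ) ≤ x := by exact_mod_cast h3
        have s1 := rr_step D L a b ((x : ℤ) - 1) (hL _) (hE1 j a b hE)
        have s2 := rr_step D L a' b' ((x : ℤ) - 1) (hL _) (hE1 j a' b' hE')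
        rw [sub_add_cancel] at s1 s2
        by_contra hne
        rcases lt_or_gt_of_ne hne with h | h
        · have hb := hE2 j a b a' b' hE hE' h
          have t1 := rr_sep D L a b a' b' x (hL0 _) (by linarith) hxL h hb
          have t2 := rr_sep D L a b a' b' ((x : ℤ) - 1) (hL0 _) (by linarith) (by linarith) h hb
          omega
        · have hb := hE2 j a' b' a b hE' hE h
          have t1 := rr_sep D L a' b' a b x (hL0 _) (by linarith) hxL h hb
          have t2 := rr_sep D L a' b' a b ((x : ℤ) - 1) (hL0 _) (by linarith) (by linarith) h hb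
          omega
    rw [haa]
  · -- edges
    have main : ∀ u v : ℤ × ZMod n, ((v.2 = u.2 ∧ v.1 = u.1 + 1) ∨ (v.2 = u.2 + 1 ∧ E u.2 u.1 v.1)) →
        ∃ p ∈ phi D n M E u, ∃ q ∈ phi D n M E v, (Cyl M).Adj p q := by
      rintro ⟨a, j⟩ ⟨b, i⟩ h
      have hD : (0 : ℤ) ≤ D := Int.natCast_nonneg D
      rcases h with ⟨h1, h2⟩ | ⟨h1, h2⟩
      · simp only at h1 h2
        subst h1 h2
        refine ⟨_, mem0 a i (6 * ((D : ℤ) + 1) * a + 6 * (D + 1) - 1) (by linarith) (by linarith),
          _, mem0 (a + 1) i (6 * ((D : ℤ) + 1) * a + 6 * (D + 1)) (by linarith) (by linarith), ?_⟩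
        have := adjv (6 * ((D : ℤ) + 1) * a + 6 * (D + 1) - 1) ((ww D * i.val : ℕ) : ZMod M)
        rwa [sub_add_cancel] at this
      · simp only at h1 h2
        subst h1
        have hab := hE1 j a b h2
        obtain ⟨h4, h5⟩ := be_mem D a b hab
        have hgj := hg j.val
        have hw2 : 2 ≤ ww D := by unfold ww; omega
        refine ⟨_, mem1 a b j (gg D n M j.val - 1) (be D a b) (by omega) (by omega) h2
          (Or.inr ?_), _, mem0 b (j + 1) (be D a b) h4 h5, ?_⟩
        · exact (rr_L D _ a b (hL0 _)).symm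
        · have h6 := adjh (be D a b) ((ww D * j.val + (gg D n M j.val - 1) : ℕ) : ZMod M)
          have h7 : ((ww D * j.val + (gg D n M j.val - 1) : ℕ) : ZMod M) + 1 =
              ((ww D * (j + 1).val : ℕ) : ZMod M) := by
            have h8 : ((ww D * j.val + (gg D n M j.val - 1) : ℕ) : ZMod M) + 1 =
                ((ww D * j.val + gg D n M j.val : ℕ) : ZMod M) := by
              have : ww D * j.val + gg D n M j.val =
                  (ww D * j.val + (gg D n M j.val - 1)) + 1 := by omega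
              rw [this]; push_cast; ring
            rw [h8]
            have hjn := ZMod.val_lt j
            haveI : Fact (1 < n) := ⟨by omega⟩
            by_cases hlast : j.val + 1 < n
            · have h9 : (j + 1).val = j.val + 1 := by
                rw [ZMod.val_add, ZMod.val_one, Nat.mod_eq_of_lt hlast]
              rw [h9]
              unfold gg
              rw [if_pos hlast, Nat.mul_succ]
            · have hjv : j.val = n - 1 := by omega
              have h9 : (j + 1).val = 0 := by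
                rw [ZMod.val_add, ZMod.val_one, hjv]
                have : n - 1 + 1 = n := by omega
                rw [this, Nat.mod_self]
              rw [h9]
              unfold gg
              rw [if_neg hlast, hjv]
              have h10 : ww D * (n - 1) + (M - ww D * (n - 1)) = M := by
                have : ww D * (n - 1) ≤ ww D * n := Nat.mul_le_mul_left _ (by omega)
                omega
              rw [h10]
              simp
          rw [h7] at h6
          exact h6
    intro u v huv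
    rw [SimpleGraph.fromRel_adj] at huv
    rcases huv.2 with h | h
    · exact main u v h
    · obtain ⟨p, hp, q, hq, hpq⟩ := main v u h
      exact ⟨q, hq, p, hp, hpq.symm⟩

end Pool.Agent.Helper37.NW
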