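import Pool.Agent.Helper7.NW.TTW

/-!
# Crossings have period two (for packet CRX of project NW, MP_266b34_co)
-/

set_option autoImplicit false

namespace Pool.Agent.Helper37.NW

open Pool.Agent.Helper52.Wq2 Pool.Agent.Helper61.NW
open scoped Nat

universe u

variable {Γ : Type u} [Group Γ] {S : Set Γ} {h : Γ → ℤ} {s : Γ} {H n m : ℕ}

/-- crossing between two lines -/
def XR (S : Set Γ) (h : Γ → ℤ) (s : Γ) (H : ℕ) (A B : Γ ⧸ Subgroup.zpowers s) : Prop :=
  ∃ a b : Γ, (a : Γ ⧸ Subgroup.zpowers s) = A ∧ (b : Γ ⧸ Subgroup.zpowers s) = B ∧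
    h b = h a + H ∧ a⁻¹ * b ∈ S ∧ (a * s)⁻¹ * (b * s⁻¹) ∈ S

theorem XR.symm (T : Two S h s H n m) {A B : Γ ⧸ Subgroup.zpowers s} (hX : XR S h s H A B) :
    XR S h s H B A := by
  obtain ⟨a, b, rfl, rfl, h1, h2, h3⟩ := hX
  have hone : h 1 = 0 := by
    have := T.hom 1 1
    rw [mul_one] at this
    linarith
  have hinv : h s⁻¹ = -H := by
    have := T.hom s s⁻¹
    rw [mul_inv_cancel, hone, T.Hs] at this
    linarith
  refine ⟨b * s⁻¹, a * s, ?_, ?_, ?_, ?_, ?_⟩
  · exact QuotientGroup.mk_mul_of_mem b (Subgroup.inv_mem _ (Subgroup.mem_zpowers s))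
  · exact QuotientGroup.mk_mul_of_mem a (Subgroup.mem_zpowers s)
  · rw [T.hom, T.hom, hinv, T.Hs, h1]; ring
  · have := T.gen.2.1 _ h3
    have e1 : ((a * s)⁻¹ * (b * s⁻¹))⁻¹ = (b * s⁻¹)⁻¹ * (a * s) := by group
    rwa [e1] at this
  · have := T.gen.2.1 _ h2
    have e1 : (a⁻¹ * b)⁻¹ = (b * s⁻¹ * s)⁻¹ * (a * s * s⁻¹) := by group
    rwa [e1] at this

theorem XR.smul (T : Two S h s H n m) (x : Γ) {A B : Γ ⧸ Subgroup.zpowers s}
    (hX : XR S h s H A B) : XR S h s H (x • A) (x • B) := by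
  obtain ⟨a, b, rfl, rfl, h1, h2, h3⟩ := hX
  refine ⟨x * a, x * b, rfl, rfl, ?_, ?_, ?_⟩
  · rw [T.hom, T.hom, h1]; ring
  · have e1 : (x * a)⁻¹ * (x * b) = a⁻¹ * b := by group
    rwa [e1]
  · have e1 : (x * a * s)⁻¹ * (x * b * s⁻¹) = (a * s)⁻¹ * (b * s⁻¹) := by group
    rwa [e1]

theorem XR.smul_iff (T : Two S h s H n m) (x : Γ) (A B : Γ ⧸ Subgroup.zpowers s) :
    XR S h s H (x • A) (x • B) ↔ XR S h s H A B := by
  refine ⟨fun hX => ?_, XR.smul T x⟩
  have := XR.smul T x⁻¹ hX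
  rwa [inv_smul_smul, inv_smul_smul] at this

theorem crs_iff (e : (Γ ⧸ Subgroup.zpowers s) ≃ ZMod n) (j : ZMod n) :
    Crs S h s H n e j ↔ XR S h s H (e.symm j) (e.symm (j + 1)) := by
  constructor
  · rintro ⟨a, b, h1, h2, h3⟩
    exact ⟨a, b, by rw [← h1, e.symm_apply_apply], by rw [← h2, e.symm_apply_apply], h3⟩
  · rintro ⟨a, b, h1, h2, h3⟩
    exact ⟨a, b, by rw [h1, e.apply_symm_apply], by rw [h2, e.apply_symm_apply], h3⟩

/-- crossings have period two -/
theorem crs_two (T : Two S h s H n m) (hn : 3 ≤ n) (e : (Γ ⧸ Subgroup.zpowers s) ≃ ZMod n)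
    (he : IsCyc S s n e) (i : ZMod n) :
    Crs S h s H n e i ↔ Crs S h s H n e (i + 2) := by
  -- work around the line `k = i + 1`
  set k : ZMod n := i + 1 with hk
  have hi : i = k - 1 := by rw [hk]; ring
  have hi2 : i + 2 = k + 1 := by rw [hk]; ring
  rw [crs_iff, crs_iff, hi2, ← hk]
  obtain ⟨x, hx⟩ := MulAction.exists_smul_eq Γ (e.symm k) (e.symm (k + 1))
  have adj1 : (Ln S s).Adj (e.symm k) (e.symm (k + 1)) := by
    rw [he]; left; rw [e.apply_symm_apply, e.apply_symm_apply]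
  have adj2 : (Ln S s).Adj (e.symm k) (e.symm i) := by
    rw [he]; right; rw [e.apply_symm_apply, e.apply_symm_apply, hk]
  have a1 := Pool.Agent.Helper7.NW.ln_smul x _ _ adj1
  have a2 := Pool.Agent.Helper7.NW.ln_smul x _ _ adj2
  rw [hx, he, e.apply_symm_apply] at a1 a2
  have hne : e.symm (k + 1) ≠ e.symm i := by
    intro hc
    have h1 : k + 1 = i := e.symm.injective hc
    have h2 : (2 : ZMod n) = 0 := by
      have : i + 1 + 1 = i := by rw [← hk]; exact h1
      have h3 : (2 : ZMod n) = i + 1 + 1 - i := by ring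
      rw [h3, this, sub_self]
    have h4 : ((2 : ℕ) : ZMod n) = 0 := by exact_mod_cast h2
    rw [ZMod.natCast_eq_zero_iff] at h4
    have := Nat.le_of_dvd (by norm_num) h4
    omega
  have hinj : x • e.symm (k + 1) ≠ x • e.symm i := fun hc => hne (MulAction.injective x hc)
  have hsymm : XR S h s H (e.symm i) (e.symm k) ↔ XR S h s H (e.symm k) (e.symm i) :=
    ⟨XR.symm T, XR.symm T⟩
  have val : ∀ (A : Γ ⧸ Subgroup.zpowers s) (c : ZMod n), e A = c → A = e.symm c := by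
    intro A c hc; rw [← hc, e.symm_apply_apply]
  rcases a1 with a1 | a1 <;> rcases a2 with a2 | a2
  · exact absurd (e.injective (a1.trans a2.symm)) hinj
  · -- `x` shifts by one
    have e1 : x • e.symm (k + 1) = e.symm (k + 1 + 1) := val _ _ a1
    have e2 : x • e.symm i = e.symm k := val _ _ (add_right_cancel a2).symm
    have p1 := XR.smul_iff T x (e.symm k) (e.symm (k + 1))
    have p2 := XR.smul_iff T x (e.symm i) (e.symm k)
    rw [hx, e1] at p1
    rw [hx, e2] at p2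
    rw [← p2, ← p1]
  · -- `x` is a reflection
    have e2 : x • e.symm i = e.symm (k + 1 + 1) := val _ _ a2
    have p := XR.smul_iff T x (e.symm k) (e.symm i)
    rw [hx, e2] at p
    rw [hsymm, ← p]
  · exact absurd (e.injective (add_right_cancel (a1.symm.trans a2))) hinj

/-- **SHIFT** -/
theorem crs_shift (T : Two S h s H n m) (hn : 3 ≤ n) (e : (Γ ⧸ Subgroup.zpowers s) ≃ ZMod n)
    (he : IsCyc S s n e) (hc : ∃ j, Crs S h s H n e j) :
    ∃ j0 : ZMod n, ∀ i : ℕ, Crs S h s H n e (j0 + 2 * i) := by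
  obtain ⟨j, hj⟩ := hc
  refine ⟨j, fun i => ?_⟩
  induction i with
  | zero => simpa using hj
  | succ i ih =>
    have := (crs_two T hn e he (j + 2 * i)).1 ih
    have e1 : j + 2 * ((i + 1 : ℕ) : ZMod n) = j + 2 * i + 2 := by push_cast; ring
    rwa [e1]

end Pool.Agent.Helper37.NW
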